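import Pool.Agent.Helper91.FU.RC
import Pool.Agent.Helper91.TM.R
import Pool.Agent.Helper55.TM.CV5

/-!
Fused machine (MP_c75db0, star frame), row N3: the cubic part.
-/

set_option autoImplicit false
set_option exponentiation.threshold 100000
noncomputable section
namespace Pool.Agent.Helper91.FU.N3

open Finset
open Pool.Agent.Helper91
open Pool.Agent.Helper91.TM (Sm Sz Sp Ev Nh zc tS vb xd ds SB Sm_eq Sm_lt Sm_div Sm_ds Sm_congr
  Sm_add Sm_sub Sm_mul Sm_land Sm_shift Sm_of SmF_eq fo fo_t fo_f cst_of land_split land_MA)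

/-! ### packed numbers -/

theorem xor_split {k a b a' b' : ℕ} (ha : a < 2 ^ k) (ha' : a' < 2 ^ k) :
    (a + 2 ^ k * b) ^^^ (a' + 2 ^ k * b') = (a ^^^ a') + 2 ^ k * (b ^^^ b') := by
  have hl : a ^^^ a' < 2 ^ k := Nat.xor_lt_two_pow ha ha'
  apply Nat.eq_of_testBit_eq
  intro i
  rw [Nat.testBit_xor, add_comm a, add_comm a', add_comm (a ^^^ a'),
    Nat.testBit_two_pow_mul_add _ ha, Nat.testBit_two_pow_mul_add _ ha',
    Nat.testBit_two_pow_mul_add _ hl]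
  split_ifs
  · rw [Nat.testBit_xor]
  · rw [Nat.testBit_xor]

theorem Sm_xor : ∀ {n : ℕ} {d m : ℕ → ℕ}, (∀ i < n, d i < 2 ^ 160) → (∀ i < n, m i < 2 ^ 160) →
    Sm n d ^^^ Sm n m = Sm n (fun i => d i ^^^ m i)
  | 0, _, _, _, _ => by simp [Sm]
  | n + 1, d, m, hd, hm => by
    have h1 : Sm n d < 2 ^ (160 * n) := Sm_lt fun i hi => hd i (by omega)
    have h2 : Sm n m < 2 ^ (160 * n) := Sm_lt fun i hi => hm i (by omega)
    have e1 : Sm (n + 1) d = Sm n d + 2 ^ (160 * n) * d n := by rw [Sm]; ring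
    have e2 : Sm (n + 1) m = Sm n m + 2 ^ (160 * n) * m n := by rw [Sm]; ring
    have e3 : Sm (n + 1) (fun i => d i ^^^ m i) = Sm n (fun i => d i ^^^ m i) +
      2 ^ (160 * n) * (d n ^^^ m n) := by rw [Sm]; ring
    rw [e1, e2, e3, xor_split h1 h2, Sm_xor (fun i hi => hd i (by omega)) fun i hi => hm i (by omega)]

/-! ### a half of a digit -/

/-- negative -/
def ng (a : ℤ) : ℕ := if a < 0 then 1 else 0
/-- the absolute value, or `1` less -/
def lo (a : ℤ) : ℕ := a.natAbs - ng a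
/-- with offset -/
def hf (s : ℕ) (a : ℤ) : ℕ := (a + 2 ^ s).toNat

theorem ng_le (a : ℤ) : ng a ≤ 1 := by unfold ng; split_ifs <;> omega

theorem xor_full {s x : ℕ} (h : x < 2 ^ s) : x ^^^ (2 ^ s - 1) = 2 ^ s - (x + 1) := by
  apply Nat.eq_of_testBit_eq
  intro i
  rw [Nat.testBit_xor, Nat.testBit_two_pow_sub_one, Nat.testBit_two_pow_sub_succ h]
  by_cases hi : i < s
  · simp [hi]
  · have h1 : x.testBit i = false :=
      Nat.testBit_lt_two_pow (lt_of_lt_of_le h (Nat.pow_le_pow_right (by norm_num) (by omega)))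
    simp [hi, h1]

variable {s : ℕ} {a b : ℤ}

theorem hf_z (h : |a| < 2 ^ s) : ((hf s a : ℕ) : ℤ) = a + 2 ^ s := by
  have h1 := abs_lt.1 h
  exact Int.toNat_of_nonneg (by linarith)

theorem hf_lt (h : |a| < 2 ^ s) : hf s a < 2 ^ (s + 1) := by
  have h1 := abs_lt.1 h
  have h2 := hf_z h
  have h3 : ((hf s a : ℕ) : ℤ) < ((2 ^ (s + 1) : ℕ) : ℤ) := by
    rw [h2]
    push_cast
    rw [pow_succ]
    linarith
  exact_mod_cast h3

theorem hf_div (h : |a| < 2 ^ s) : hf s a / 2 ^ s = 1 - ng a := by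
  have h1 := abs_lt.1 h
  have h2 := hf_z h
  have hP : 0 < 2 ^ s := by positivity
  have hPz : ((2 ^ s : ℕ) : ℤ) = 2 ^ s := by push_cast; rfl
  unfold ng
  split_ifs with h3
  · apply Nat.div_eq_of_lt
    have : ((hf s a : ℕ) : ℤ) < ((2 ^ s : ℕ) : ℤ) := by rw [h2, hPz]; linarith
    exact_mod_cast this
  · have h4 : 2 ^ s ≤ hf s a := by
      have : ((2 ^ s : ℕ) : ℤ) ≤ ((hf s a : ℕ) : ℤ) := by rw [h2, hPz]; linarith
      exact_mod_cast this
    have h5 := hf_lt h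
    rw [pow_succ] at h5
    rw [Nat.div_eq_iff hP]
    omega

theorem half (h : |a| < 2 ^ s) : (hf s a ^^^ (ng a * (2 ^ s - 1))) &&& (2 ^ s - 1) = lo a := by
  have h1 := abs_lt.1 h
  have h2 := hf_z h
  have hP : 0 < 2 ^ s := by positivity
  have hPz : ((2 ^ s : ℕ) : ℤ) = 2 ^ s := by push_cast; rfl
  rw [Nat.and_two_pow_sub_one_eq_mod]
  by_cases h3 : a < 0
  · have e : ng a = 1 := if_pos h3
    have h4 : hf s a < 2 ^ s := by
      have : ((hf s a : ℕ) : ℤ) < ((2 ^ s : ℕ) : ℤ) := by rw [h2, hPz]; linarith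
      exact_mod_cast this
    rw [e, one_mul, xor_full h4, Nat.mod_eq_of_lt (by omega)]
    unfold lo
    rw [e]
    rw [← hPz] at h2 h1
    omega
  · have e : ng a = 0 := if_neg h3
    rw [e, zero_mul, Nat.xor_zero]
    unfold lo
    rw [e]
    have h5 : hf s a = a.natAbs + 2 ^ s := by
      rw [← hPz] at h2 h1
      omega
    rw [h5, Nat.add_mod_right, Nat.mod_eq_of_lt]
    · rfl
    · rw [← hPz] at h1
      omega

/-- the two signs -/
theorem sgn (hs : s < 80) (ha : |a| < 2 ^ s) (hb : |b| < 2 ^ s) :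
    ((hf s a + 2 ^ 80 * hf s b) / 2 ^ s) &&& (1 + 2 ^ 80 * 1) =
      (1 - ng a) + 2 ^ 80 * (1 - ng b) := by
  have hP : 0 < 2 ^ s := by positivity
  have e0 : (2 : ℕ) ^ 80 = 2 ^ s * 2 ^ (80 - s) := by
    rw [← pow_add]
    congr 1
    omega
  have e1 : (hf s a + 2 ^ 80 * hf s b) / 2 ^ s = hf s a / 2 ^ s + 2 ^ (80 - s) * hf s b := by
    rw [e0, mul_assoc, Nat.add_mul_div_left _ _ hP]
  have e2 : 2 ^ (80 - s) * hf s b = 2 ^ (80 - s) * (hf s b % 2 ^ s) +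
      2 ^ 80 * (hf s b / 2 ^ s) := by
    rw [e0]
    conv_lhs => rw [← Nat.mod_add_div (hf s b) (2 ^ s)]
    ring
  have e3 : (2 : ℕ) ^ (80 - s) = 2 * 2 ^ (79 - s) := by
    rw [← pow_succ']
    congr 1
    omega
  have hm : hf s b % 2 ^ s < 2 ^ s := Nat.mod_lt _ hP
  have h80 : (1 - ng a) + 2 ^ (80 - s) * (hf s b % 2 ^ s) < 2 ^ 80 := by
    have h6 : 2 ^ (80 - s) * (hf s b % 2 ^ s + 1) ≤ 2 ^ (80 - s) * 2 ^ s :=
      Nat.mul_le_mul_left _ hm
    have h7 : 2 ^ (80 - s) * 2 ^ s = 2 ^ 80 := by rw [e0, mul_comm]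
    rw [h7, mul_add, e3] at h6
    have h8 : 0 < 2 ^ (79 - s) := by positivity
    rw [e3]
    omega
  rw [e1, hf_div ha, e2, hf_div hb, ← add_assoc, land_split h80 (by norm_num : 1 < 2 ^ 80)]
  have e4 : (1 - ng a + 2 ^ (80 - s) * (hf s b % 2 ^ s)) &&& 1 = 1 - ng a := by
    rw [Nat.and_one_is_mod, e3, mul_assoc, Nat.add_mul_mod_self_left]
    have := ng_le a
    omega
  have e5 : (1 - ng b) &&& 1 = 1 - ng b := by
    rw [Nat.and_one_is_mod]
    have := ng_le b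
    omega
  rw [e4, e5]

/-! ### the packed absolute values -/

/-- the digits of a packed number with offset `2 ^ s` -/
def dgh (s : ℕ) (a b : ℕ → ℤ) (i : ℕ) : ℕ :=
  if vb i = true then hf s (a i) + 2 ^ 80 * hf s (b i) else 0

/-- the condition of a mask -/
def cm (k i : ℕ) : Bool := decide (vb i = true ∧ cub i ∧ xd i = k)

theorem p80 {s : ℕ} (hs : s < 80) : 2 ^ (s + 1) ≤ 2 ^ 80 :=
  Nat.pow_le_pow_right (by norm_num) (by omega)

theorem dgh_lt {s : ℕ} (hs : s < 80) {a b : ℕ → ℤ} (ha : ∀ i, |a i| < 2 ^ s)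
    (hb : ∀ i, |b i| < 2 ^ s) (i : ℕ) : dgh s a b i < 2 ^ 160 := by
  unfold dgh
  split_ifs
  · have h1 := (hf_lt (ha i)).trans_le (p80 hs)
    have h2 := (hf_lt (hb i)).trans_le (p80 hs)
    have e : (2 : ℕ) ^ 160 = 2 ^ 80 * 2 ^ 80 := by norm_num
    omega
  · positivity

/-- the packed number of the theorem -/
theorem abs_eq {s : ℕ} (hs : s < 79) {a b : ℕ → ℤ} (ha : ∀ i, |a i| < 2 ^ s)
    (hb : ∀ i, |b i| < 2 ^ s) {Y M : ℕ} (hY : Y = Sm 301 (dgh s a b)) (hn : nS = Sm 301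
      (fun i => fo (1 + 2 ^ 80 * 1) (vb i))) {k : ℕ}
    (hM : M = Sm 301 (fun i => if cm k i = true then (2 ^ s - 1) + 2 ^ 80 * (2 ^ s - 1) else 0)) :
    (Y ^^^ ((nS - ((Y / 2 ^ s) &&& nS)) * 2 ^ s - (nS - ((Y / 2 ^ s) &&& nS)))) &&& M =
      Sm 301 (fun i => if cm k i = true then lo (a i) + 2 ^ 80 * lo (b i) else 0) := by
  have hs80 : s < 80 := by omega
  have hd := dgh_lt hs80 ha hb
  have hP : 0 < 2 ^ s := by positivity
  have hsig : (Y / 2 ^ s) &&& nS = Sm 301 (fun i => if vb i = true then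
      (1 - ng (a i)) + 2 ^ 80 * (1 - ng (b i)) else 0) := by
    have h1 := Sm_shift (s := s) (by omega) (n := 301) (d := dgh s a b)
      (m := fun i => fo (1 + 2 ^ 80 * 1) (vb i)) (fun i _ => hd i) (fun i _ => by
        have h80 : 2 ^ 81 ≤ 2 ^ (160 - s) := Nat.pow_le_pow_right (by norm_num) (by omega)
        refine lt_of_lt_of_le ?_ h80
        show fo (1 + 2 ^ 80 * 1) (vb i) < _
        cases vb i
        · rw [fo_f]; norm_num
        · rw [fo_t]; norm_num) 0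
    rw [mul_zero, add_zero, ← hY, ← hn] at h1
    rw [h1]
    refine Sm_congr fun i _ => ?_
    show dgh s a b i / 2 ^ s &&& fo (1 + 2 ^ 80 * 1) (vb i) = _
    unfold dgh
    cases hv : vb i
    · rw [fo_f, Nat.and_zero]
      rfl
    · rw [fo_t, if_pos rfl, if_pos rfl]
      exact sgn hs80 (ha i) (hb i)
  set t : ℕ → ℕ := fun i => if vb i = true then ng (a i) + 2 ^ 80 * ng (b i) else 0 with ht
  have hT : nS - ((Y / 2 ^ s) &&& nS) = Sm 301 t := by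
    rw [hsig, hn, ← Sm_sub]
    · refine Sm_congr fun i _ => ?_
      show fo (1 + 2 ^ 80 * 1) (vb i) - (if vb i = true then
        (1 - ng (a i)) + 2 ^ 80 * (1 - ng (b i)) else 0) = if vb i = true then
          ng (a i) + 2 ^ 80 * ng (b i) else 0
      have h1 := ng_le (a i)
      have h2 := ng_le (b i)
      cases vb i
      · rfl
      · rw [fo_t, if_pos rfl, if_pos rfl]
        omega
    · intro i _
      show (if vb i = true then (1 - ng (a i)) + 2 ^ 80 * (1 - ng (b i)) else 0) ≤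
        fo (1 + 2 ^ 80 * 1) (vb i)
      cases vb i
      · exact le_rfl
      · rw [fo_t, if_pos rfl]
        omega
  have hTs : Sm 301 t * 2 ^ s - Sm 301 t = Sm 301 (fun i => if vb i = true then
      ng (a i) * (2 ^ s - 1) + 2 ^ 80 * (ng (b i) * (2 ^ s - 1)) else 0) := by
    rw [← Sm_mul, ← Sm_sub]
    · refine Sm_congr fun i _ => ?_
      show (if vb i = true then ng (a i) + 2 ^ 80 * ng (b i) else 0) * 2 ^ s -
        (if vb i = true then ng (a i) + 2 ^ 80 * ng (b i) else 0) = _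
      cases vb i
      · simp
      · rw [if_pos rfl, if_pos rfl]
        obtain ⟨P, hPP⟩ : ∃ P, 2 ^ s = P + 1 := ⟨2 ^ s - 1, by omega⟩
        rw [hPP, Nat.add_sub_cancel]
        have e : (ng (a i) + 2 ^ 80 * ng (b i)) * (P + 1) =
          (ng (a i) * P + 2 ^ 80 * (ng (b i) * P)) + (ng (a i) + 2 ^ 80 * ng (b i)) := by ring
        rw [e, Nat.add_sub_cancel]
    · intro i _
      exact Nat.le_mul_of_pos_right _ hP
  have hmlt : ∀ i, (if vb i = true then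
      ng (a i) * (2 ^ s - 1) + 2 ^ 80 * (ng (b i) * (2 ^ s - 1)) else 0) < 2 ^ 160 := by
    intro i
    have hq : 2 ^ s ≤ 2 ^ 79 := Nat.pow_le_pow_right (by norm_num) (by omega)
    have h1 : ng (a i) * (2 ^ s - 1) ≤ 1 * (2 ^ s - 1) := Nat.mul_le_mul_right _ (ng_le _)
    have h2 : ng (b i) * (2 ^ s - 1) ≤ 1 * (2 ^ s - 1) := Nat.mul_le_mul_right _ (ng_le _)
    split_ifs
    · generalize ng (a i) * (2 ^ s - 1) = x at *
      generalize ng (b i) * (2 ^ s - 1) = y at *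
      have e : (2 : ℕ) ^ 160 = 2 ^ 80 * 2 ^ 80 := by norm_num
      have e2 : (2 : ℕ) ^ 80 = 2 * 2 ^ 79 := by norm_num
      omega
    · positivity
  rw [hT, hTs, hY, hM, Sm_xor (fun i _ => hd i) fun i _ => hmlt i]
  have h9 := Sm_land (n := 301) (d := fun i => dgh s a b i ^^^ (if vb i = true then
      ng (a i) * (2 ^ s - 1) + 2 ^ 80 * (ng (b i) * (2 ^ s - 1)) else 0))
      (m := fun i => if cm k i = true then (2 ^ s - 1) + 2 ^ 80 * (2 ^ s - 1) else 0)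
      (fun i _ => Nat.xor_lt_two_pow (hd i) (hmlt i)) (fun i _ => by
        have hq : 2 ^ s ≤ 2 ^ 79 := Nat.pow_le_pow_right (by norm_num) (by omega)
        show (if cm k i = true then (2 ^ s - 1) + 2 ^ 80 * (2 ^ s - 1) else 0) < 2 ^ 160
        have e : (2 : ℕ) ^ 160 = 2 ^ 80 * 2 ^ 80 := by norm_num
        have e2 : (2 : ℕ) ^ 80 = 2 * 2 ^ 79 := by norm_num
        split_ifs
        · omega
        · positivity) 0
  rw [mul_zero, add_zero] at h9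
  rw [h9]
  refine Sm_congr fun i _ => ?_
  show (dgh s a b i ^^^ (if vb i = true then
      ng (a i) * (2 ^ s - 1) + 2 ^ 80 * (ng (b i) * (2 ^ s - 1)) else 0)) &&&
      (if cm k i = true then (2 ^ s - 1) + 2 ^ 80 * (2 ^ s - 1) else 0) = _
  by_cases hc : cm k i = true
  · have hv : vb i = true := (of_decide_eq_true hc).1
    rw [if_pos hc, if_pos hc]
    unfold dgh
    rw [if_pos hv, if_pos hv]
    have q1 := (hf_lt (ha i)).trans_le (p80 hs80)
    have hq : 2 ^ s ≤ 2 ^ 79 := Nat.pow_le_pow_right (by norm_num) (by omega)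
    have q2 : ng (a i) * (2 ^ s - 1) < 2 ^ 80 := by
      have h1 : ng (a i) * (2 ^ s - 1) ≤ 1 * (2 ^ s - 1) := Nat.mul_le_mul_right _ (ng_le _)
      have e2 : (2 : ℕ) ^ 80 = 2 * 2 ^ 79 := by norm_num
      omega
    have q3 : (2 ^ s - 1) < 2 ^ 80 := by
      have e2 : (2 : ℕ) ^ 80 = 2 * 2 ^ 79 := by norm_num
      omega
    rw [xor_split q1 q2, land_split (Nat.xor_lt_two_pow q1 q2) q3, half (ha i), half (hb i)]
  · rw [if_neg hc, if_neg hc, Nat.and_zero]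

/-! ### the sums -/

/-- the sum of the digits of degree `k` -/
def S (k : ℕ) (a : ℕ → ℤ) : ℕ := ∑ i ∈ range 301, if cm k i = true then lo (a i) else 0

theorem lo_le (a : ℤ) : (lo a : ℤ) ≤ |a| := by
  unfold lo ng
  rw [← Int.natCast_natAbs]
  split_ifs <;> omega
theorem le_lo (a : ℤ) : |a| ≤ lo a + 1 := by
  unfold lo ng
  rw [← Int.natCast_natAbs]
  split_ifs <;> omega

theorem S_le {k : ℕ} {a : ℕ → ℤ} {m : ℤ} (h : ∑ i ∈ range 301, |a i| ≤ m) : (S k a : ℤ) ≤ m := by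
  refine le_trans ?_ h
  unfold S
  push_cast
  refine Finset.sum_le_sum fun i _ => ?_
  split_ifs
  · exact lo_le _
  · exact abs_nonneg _

theorem ds_S {k : ℕ} {a b : ℕ → ℤ} (ha : ∑ i ∈ range 301, |a i| ≤ 2 ^ 79)
    (hb : ∑ i ∈ range 301, |b i| ≤ 2 ^ 79) :
    ds (Sm 301 (fun i => if cm k i = true then lo (a i) + 2 ^ 80 * lo (b i) else 0)) =
      S k a + 2 ^ 80 * S k b := by
  have h1 : S k a ≤ 2 ^ 79 := by exact_mod_cast S_le ha
  have h2 : S k b ≤ 2 ^ 79 := by exact_mod_cast S_le hb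
  have e : ∑ i ∈ range 301, (if cm k i = true then lo (a i) + 2 ^ 80 * lo (b i) else 0) =
      S k a + 2 ^ 80 * S k b := by
    unfold S
    rw [Finset.mul_sum, ← Finset.sum_add_distrib]
    refine Finset.sum_congr rfl fun i _ => ?_
    split_ifs
    · rfl
    · rfl
  show Sm 301 _ % (2 ^ 160 - 1) = _
  rw [Sm_ds, e]
  rw [e]
  have e1 : (2 : ℕ) ^ 160 = 2 ^ 80 * 2 ^ 80 := by norm_num
  have e2 : (2 : ℕ) ^ 80 = 2 * 2 ^ 79 := by norm_num
  have e3 : (0 : ℕ) < 2 ^ 79 := by norm_num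
  omega

theorem hlo_S {x y : ℕ} (hx : x ≤ 2 ^ 79) : hlo (x + 2 ^ 80 * y) = x := by
  have e : hlo (x + 2 ^ 80 * y) = (x + 2 ^ 80 * y) &&& (2 ^ 80 - 1) := rfl
  rw [e, Nat.and_two_pow_sub_one_eq_mod, Nat.add_mul_mod_self_left, Nat.mod_eq_of_lt]
  exact lt_of_le_of_lt hx (by norm_num)
theorem hhi_S {x y : ℕ} (hx : x ≤ 2 ^ 79) : hhi (x + 2 ^ 80 * y) = y := by
  have e : hhi (x + 2 ^ 80 * y) = (x + 2 ^ 80 * y) / 2 ^ 80 := Nat.shiftRight_eq_div_pow _ _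
  rw [e, Nat.add_mul_div_left _ _ (by norm_num), Nat.div_eq_of_lt, zero_add]
  exact lt_of_le_of_lt hx (by norm_num)

/-- the weighted sum -/
def Wg (a : ℕ → ℤ) : ℕ := 32 * S 3 a + 8 * S 4 a + (4 * S 5 a + S 6 a)

theorem wc4_S (x y z w : ℕ) : wc4 x y z w = 32 * x + 8 * y + (4 * z + w) := by
  have e : wc4 x y z w = x <<< 5 + y <<< 3 + (z <<< 2 + w) := rfl
  rw [e, Nat.shiftLeft_eq, Nat.shiftLeft_eq, Nat.shiftLeft_eq]
  ring

/-- the weight of a monomial -/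
def wt (i : ℕ) : ℕ := (if cm 3 i = true then 32 else 0) + (if cm 4 i = true then 8 else 0) +
  ((if cm 5 i = true then 4 else 0) + (if cm 6 i = true then 1 else 0))

theorem wt_sum : ∑ i ∈ range 301, wt i = 267 := by decide +kernel

theorem Wg_eq (a : ℕ → ℤ) : Wg a = ∑ i ∈ range 301, wt i * lo (a i) := by
  unfold Wg S
  rw [Finset.mul_sum, Finset.mul_sum, Finset.mul_sum, ← Finset.sum_add_distrib,
    ← Finset.sum_add_distrib, ← Finset.sum_add_distrib]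
  refine Finset.sum_congr rfl fun i _ => ?_
  unfold wt
  split_ifs <;> ring

/-- the weights -/
theorem wt_Cu {i : ℕ} (hi : i < 301) : (if vb i = true ∧ cub i then
    1 / 4 ^ xd i * (if xd i ≤ 4 then 1 / 4 else 1 / 2) else 0 : ℝ) * 2 ^ 13 = wt i := by
  by_cases h : vb i = true ∧ cub i
  · have h1 : xd i ≤ 6 := by unfold xd; omega
    have h2 : 3 ≤ xd i := by
      have h3 := x_sum h.1
      have h4 := h.2
      unfold cub at h4
      omega
    have hc : ∀ k, cm k i = true ↔ xd i = k := by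
      intro k
      unfold cm
      rw [decide_eq_true_iff]
      exact ⟨fun q => q.2.2, fun q => ⟨h.1, h.2, q⟩⟩
    rw [if_pos h]
    unfold wt
    simp only [hc]
    generalize xd i = n at *
    interval_cases n
    all_goals norm_num
  · have hc : ∀ k, ¬ cm k i = true := by
      intro k
      unfold cm
      rw [decide_eq_true_iff]
      exact fun q => h ⟨q.1, q.2.1⟩
    rw [if_neg h]
    unfold wt
    rw [if_neg (hc 3), if_neg (hc 4), if_neg (hc 5), if_neg (hc 6)]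
    norm_num

theorem Cu_eq (a : ℕ → ℝ) : 2 ^ 13 * Cu a = ∑ i ∈ range 301, (wt i : ℝ) * |a i| := by
  unfold Cu
  rw [Finset.mul_sum]
  refine Finset.sum_congr rfl fun i hi => ?_
  rw [← wt_Cu (mem_range.1 hi)]
  split_ifs
  · ring
  · ring
  · ring

theorem Cu_le (a : ℕ → ℤ) : 2 ^ 13 * Cu (fun i => (a i : ℝ)) ≤ (Wg a : ℝ) + 267 := by
  rw [Cu_eq, Wg_eq]
  have h1 : ∑ i ∈ range 301, (wt i : ℝ) * |(a i : ℝ)| ≤
      ∑ i ∈ range 301, (wt i : ℝ) * ((lo (a i) : ℝ) + 1) := by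
    refine Finset.sum_le_sum fun i _ => ?_
    refine mul_le_mul_of_nonneg_left ?_ (Nat.cast_nonneg _)
    have h2 := le_lo (a i)
    have h3 : ((|a i| : ℤ) : ℝ) ≤ ((lo (a i) + 1 : ℤ) : ℝ) := by exact_mod_cast h2
    push_cast at h3
    exact h3
  refine h1.trans (le_of_eq ?_)
  have h4 : ((∑ i ∈ range 301, wt i : ℕ) : ℝ) = 267 := by rw [wt_sum]; norm_num
  push_cast at h4 ⊢
  rw [← h4, ← Finset.sum_add_distrib]
  exact Finset.sum_congr rfl fun i _ => by ring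

theorem Cu_nn (a : ℕ → ℝ) : 0 ≤ Cu a := by
  have h := Cu_eq a
  have h2 : 0 ≤ ∑ i ∈ range 301, (wt i : ℝ) * |a i| :=
    Finset.sum_nonneg fun i _ => mul_nonneg (Nat.cast_nonneg _) (abs_nonneg _)
  rw [← h] at h2
  exact nonneg_of_mul_nonneg_right h2 (by norm_num)

theorem Cu_half (a : ℕ → ℝ) : Cu (fun i => a i / 2) = Cu a / 2 := by
  have h1 := Cu_eq a
  have h2 := Cu_eq (fun i => a i / 2)
  have h3 : ∑ i ∈ range 301, (wt i : ℝ) * |a i / 2| = (∑ i ∈ range 301, (wt i : ℝ) * |a i|) / 2 := by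
    rw [Finset.sum_div]
    refine Finset.sum_congr rfl fun i _ => ?_
    rw [abs_div, abs_two]
    ring
  rw [h3] at h2
  linarith

/-! ### the modulus -/

theorem mo1_ge (a b : ℕ) : (a : ℝ) + b / 2 ≤ mo1 a b + 1 ∧ (b : ℝ) + a / 2 ≤ mo1 a b + 1 := by
  have e : mo1 a b = (a + b >>> 1) + ((b + a >>> 1) - (a + b >>> 1)) := rfl
  have h1 : a + b >>> 1 ≤ mo1 a b := by rw [e]; omega
  have h2 : b + a >>> 1 ≤ mo1 a b := by rw [e]; omega
  have h3 : b ≤ 2 * (b >>> 1) + 1 := by rw [Nat.shiftRight_eq_div_pow]; omega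
  have h4 : a ≤ 2 * (a >>> 1) + 1 := by rw [Nat.shiftRight_eq_div_pow]; omega
  have k1 : (a : ℝ) + (b >>> 1 : ℕ) ≤ mo1 a b := by exact_mod_cast h1
  have k2 : (b : ℝ) + (a >>> 1 : ℕ) ≤ mo1 a b := by exact_mod_cast h2
  have k3 : (b : ℝ) ≤ (2 : ℝ) * ((b >>> 1 : ℕ) : ℝ) + 1 := by exact_mod_cast h3
  have k4 : (a : ℝ) ≤ (2 : ℝ) * ((a >>> 1 : ℕ) : ℝ) + 1 := by exact_mod_cast h4
  constructor <;> linarith

theorem sqrt_mo {a b : ℕ} {x y : ℝ} (hx : 0 ≤ x) (hy : 0 ≤ y) (h1 : x ≤ a + 267)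
    (h2 : y ≤ b + 267) : √(x ^ 2 + y ^ 2) ≤ mo1 a b + 402 := by
  obtain ⟨k1, k2⟩ := mo1_ge a b
  have h0 : (0 : ℝ) ≤ mo1 a b := Nat.cast_nonneg _
  refine Real.sqrt_le_iff.2 ⟨by linarith, ?_⟩
  rcases le_total x y with h | h
  · have h3 : y + x / 2 ≤ mo1 a b + 402 := by linarith
    have h4 : (y + x / 2) ^ 2 ≤ ((mo1 a b : ℝ) + 402) ^ 2 := pow_le_pow_left₀ (by positivity) h3 2
    nlinarith
  · have h3 : x + y / 2 ≤ mo1 a b + 402 := by linarith
    have h4 : (x + y / 2) ^ 2 ≤ ((mo1 a b : ℝ) + 402) ^ 2 := pow_le_pow_left₀ (by positivity) h3 2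
    nlinarith

/-! ### constants -/

theorem nS_eq : nS = Sm 301 (fun i => fo (1 + 2 ^ 80 * 1) (vb i)) :=
  cst_of (k := 1 + 2 ^ 80 * 1) (by decide +kernel)
theorem nO_eq : nO = Sm 301 (fun i => fo (2 ^ 73 + 2 ^ 80 * 2 ^ 73) (vb i)) :=
  cst_of (k := 2 ^ 73 + 2 ^ 80 * 2 ^ 73) (by decide +kernel)
theorem nK_eq : nK = Sm 301 (fun i => fo ((2 ^ 76 - 2 ^ 74) + 2 ^ 80 * (2 ^ 76 - 2 ^ 74)) (vb i)) :=
  cst_of (k := (2 ^ 76 - 2 ^ 74) + 2 ^ 80 * (2 ^ 76 - 2 ^ 74)) (by decide +kernel)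

theorem nC3_eq : nC3 = Sm 301 (fun i => if cm 3 i = true then
    (2 ^ 73 - 1) + 2 ^ 80 * (2 ^ 73 - 1) else 0) := by decide +kernel
theorem nC4_eq : nC4 = Sm 301 (fun i => if cm 4 i = true then
    (2 ^ 73 - 1) + 2 ^ 80 * (2 ^ 73 - 1) else 0) := by decide +kernel
theorem nC5_eq : nC5 = Sm 301 (fun i => if cm 5 i = true then
    (2 ^ 73 - 1) + 2 ^ 80 * (2 ^ 73 - 1) else 0) := by decide +kernel
theorem nC6_eq : nC6 = Sm 301 (fun i => if cm 6 i = true then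
    (2 ^ 73 - 1) + 2 ^ 80 * (2 ^ 73 - 1) else 0) := by decide +kernel
theorem nD3_eq : nD3 = Sm 301 (fun i => if cm 3 i = true then
    (2 ^ 76 - 1) + 2 ^ 80 * (2 ^ 76 - 1) else 0) := by decide +kernel
theorem nD4_eq : nD4 = Sm 301 (fun i => if cm 4 i = true then
    (2 ^ 76 - 1) + 2 ^ 80 * (2 ^ 76 - 1) else 0) := by decide +kernel
theorem nD5_eq : nD5 = Sm 301 (fun i => if cm 5 i = true then
    (2 ^ 76 - 1) + 2 ^ 80 * (2 ^ 76 - 1) else 0) := by decide +kernel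
theorem nD6_eq : nD6 = Sm 301 (fun i => if cm 6 i = true then
    (2 ^ 76 - 1) + 2 ^ 80 * (2 ^ 76 - 1) else 0) := by decide +kernel

/-! ### a packed number -/

theorem le_sum {a : ℕ → ℤ} {m : ℤ} (hs : Sp a) (h : ∑ i ∈ range 301, |a i| ≤ m) (hm : 0 ≤ m)
    (i : ℕ) : |a i| ≤ m := by
  by_cases hi : i < 301
  · exact (Finset.single_le_sum (f := fun k => |a k|) (fun _ _ => abs_nonneg _)
      (mem_range.2 hi)).trans h
  · have hv : vb i = false := by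
      cases hb : vb i
      · rfl
      · exact absurd ((TM.vb_iff i).1 hb).1 hi
    rw [hs i hv, abs_zero]
    exact hm

/-- a general packed number and its masks -/
theorem cub_ok {s : ℕ} (hs : s < 79) {a b : ℕ → ℤ} {m : ℤ} (hm : 0 ≤ m) (hm2 : m < 2 ^ s)
    (sa : Sp a) (sb : Sp b) (ha : ∑ i ∈ range 301, |a i| ≤ m) (hb : ∑ i ∈ range 301, |b i| ≤ m)
    {Y : ℕ} (hY : Y = Sm 301 (dgh s a b)) {M : ℕ → ℕ}
    (hM : ∀ k, 3 ≤ k → k ≤ 6 → M k =
      Sm 301 (fun i => if cm k i = true then (2 ^ s - 1) + 2 ^ 80 * (2 ^ s - 1) else 0)) {A : ℕ}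
    (hA : A = Y ^^^ ((nS - ((Y / 2 ^ s) &&& nS)) * 2 ^ s - (nS - ((Y / 2 ^ s) &&& nS)))) :
    cb4 (ds (Nat.land A (M 3))) (ds (Nat.land A (M 4))) (ds (Nat.land A (M 5)))
      (ds (Nat.land A (M 6))) = mo1 (Wg a) (Wg b) := by
  have k79 : (2 : ℤ) ^ s ≤ 2 ^ 79 := pow_le_pow_right₀ (by norm_num) (by omega)
  have ha' : ∀ i, |a i| < 2 ^ s := fun i => lt_of_le_of_lt (le_sum sa ha hm i) hm2
  have hb' : ∀ i, |b i| < 2 ^ s := fun i => lt_of_le_of_lt (le_sum sb hb hm i) hm2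
  have hd : ∀ k, 3 ≤ k → k ≤ 6 → ds (Nat.land A (M k)) = S k a + 2 ^ 80 * S k b := by
    intro k h3 h6
    have e := abs_eq hs ha' hb' hY nS_eq (hM k h3 h6)
    rw [← hA] at e
    have e2 : Nat.land A (M k) = A &&& M k := rfl
    rw [e2, e]
    exact ds_S (ha.trans (hm2.le.trans k79)) (hb.trans (hm2.le.trans k79))
  have hS : ∀ k, S k a ≤ 2 ^ 79 := fun k => by
    have := (S_le (k := k) ha).trans (hm2.le.trans k79)
    exact_mod_cast this
  rw [hd 3 (by norm_num) (by norm_num), hd 4 (by norm_num) (by norm_num),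
    hd 5 (by norm_num) (by norm_num), hd 6 (by norm_num) (by norm_num)]
  unfold cb4
  rw [hlo_S (hS 3), hlo_S (hS 4), hlo_S (hS 5), hlo_S (hS 6), hhi_S (hS 3), hhi_S (hS 4),
    hhi_S (hS 5), hhi_S (hS 6), wc4_S, wc4_S]
  rfl

/-- the masks -/
def MC (k : ℕ) : ℕ := if k = 3 then nC3 else if k = 4 then nC4 else if k = 5 then nC5 else nC6
def MD (k : ℕ) : ℕ := if k = 3 then nD3 else if k = 4 then nD4 else if k = 5 then nD5 else nD6

theorem MC_ok (k : ℕ) (h3 : 3 ≤ k) (h6 : k ≤ 6) : MC k =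
    Sm 301 (fun i => if cm k i = true then (2 ^ 73 - 1) + 2 ^ 80 * (2 ^ 73 - 1) else 0) := by
  interval_cases k
  · exact nC3_eq
  · exact nC4_eq
  · exact nC5_eq
  · exact nC6_eq
theorem MD_ok (k : ℕ) (h3 : 3 ≤ k) (h6 : k ≤ 6) : MD k =
    Sm 301 (fun i => if cm k i = true then (2 ^ 76 - 1) + 2 ^ 80 * (2 ^ 76 - 1) else 0) := by
  interval_cases k
  · exact nD3_eq
  · exact nD4_eq
  · exact nD5_eq
  · exact nD6_eq

theorem shl_T (T s : ℕ) : Nat.sub (Nat.shiftLeft T s) T = T * 2 ^ s - T := by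
  show T <<< s - T = _
  rw [Nat.shiftLeft_eq]

theorem abY_eq (Y : ℕ) : abY Y = Y ^^^ ((nS - ((Y / 2 ^ 73) &&& nS)) * 2 ^ 73 -
    (nS - ((Y / 2 ^ 73) &&& nS))) := by
  have e : abY Y = Nat.xor Y (Nat.sub (Nat.shiftLeft (Nat.sub nS (Nat.land
    (Nat.shiftRight Y 73) nS)) 73) (Nat.sub nS (Nat.land (Nat.shiftRight Y 73) nS))) := rfl
  rw [e, shl_T, show Nat.shiftRight Y 73 = Y / 2 ^ 73 from Nat.shiftRight_eq_div_pow _ _]
  rfl
theorem abZ_eq (Y : ℕ) : abZ Y = Y ^^^ ((nS - ((Y / 2 ^ 76) &&& nS)) * 2 ^ 76 -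
    (nS - ((Y / 2 ^ 76) &&& nS))) := by
  have e : abZ Y = Nat.xor Y (Nat.sub (Nat.shiftLeft (Nat.sub nS (Nat.land
    (Nat.shiftRight Y 76) nS)) 76) (Nat.sub nS (Nat.land (Nat.shiftRight Y 76) nS))) := rfl
  rw [e, shl_T, show Nat.shiftRight Y 76 = Y / 2 ^ 76 from Nat.shiftRight_eq_div_pow _ _]
  rfl

theorem mul_sqrt {x y : ℝ} : 2 ^ 13 * √(x ^ 2 + y ^ 2) = √((2 ^ 13 * x) ^ 2 + (2 ^ 13 * y) ^ 2) := by
  have e : (2 ^ 13 * x) ^ 2 + (2 ^ 13 * y) ^ 2 = (2 ^ 13) ^ 2 * (x ^ 2 + y ^ 2) := by ring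
  rw [e, Real.sqrt_mul (by positivity), Real.sqrt_sq (by positivity)]

end Pool.Agent.Helper91.FU.N3

namespace Pool.Agent.Helper91.FU

open Finset
open Pool.Agent.Helper91
open Pool.Agent.Helper90.KMT (PT)
open Pool.Agent.Helper90.KMO (UU UU_pos andB_t)
open Pool.Agent.Helper86.CX (andB)
open Pool.Agent.Helper86.CT (Mo)
open Pool.Agent.Helper91.TM (TP Sm Sz Sp Ev Nh zc tS vb xd ds SB fo fo_t fo_f)
open Pool.Agent.Helper91.TMK (TOK)
open N3

/-- the number `yR` -/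
theorem yR_ok {c : ℕ} {u : RW} {p q : ℕ → ℤ} {n : ℕ → ℕ} (h : RR c u p q n) (hc : c ≤ 16)
    (hf : Nat.ble (dw u.D) (nat_lit 162259276828032771770860598984704) = true) :
    NY (yR u) p q := by
  have hw : Wt 15 n ≤ 16 * 2 ^ 128 := h.w.trans (Nat.mul_le_mul_right _ hc)
  have hf2 : Wt 15 n ≤ 2 ^ 107 - 2 ^ 70 := by
    have h1 := Nat.le_of_ble_eq_true hf
    rw [h.D, dw_eq hw] at h1
    exact h1
  have hN : ∑ i ∈ range 301, ‖zc p q i‖ ≤ 2 ^ 73 - 2 ^ 36 := by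
    have e := TM.sum_blk2 (zc p q) (fun _ => 1)
    simp only [mul_one] at e
    rw [e]
    have k : ∀ d < 7, Nh (zc p q) d ≤ 4 ^ d * (n d : ℝ) / 2 ^ 34 := fun d hd => by
      rw [le_div_iff₀ (by positivity), mul_comm]
      exact h.h d hd
    have k0 := k 0 (by norm_num)
    have k1 := k 1 (by norm_num)
    have k2 := k 2 (by norm_num)
    have k3 := k 3 (by norm_num)
    have k4 := k 4 (by norm_num)
    have k5 := k 5 (by norm_num)
    have k6 := k 6 (by norm_num)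
    have e7 : ∑ d ∈ range 7, 4 ^ d * n d ≤ 2 ^ 107 - 2 ^ 70 := by
      refine le_trans ?_ hf2
      unfold Wt
      exact Finset.sum_le_sum_of_subset (Finset.range_subset_range.2 (by norm_num))
    have e8 : ((∑ d ∈ range 7, 4 ^ d * n d : ℕ) : ℝ) ≤ ((2 ^ 107 - 2 ^ 70 : ℕ) : ℝ) :=
      Nat.cast_le.2 e7
    rw [Nat.cast_sub (by norm_num)] at e8
    push_cast at e8
    simp only [Finset.sum_range_succ, Finset.sum_range_zero] at e8
    have e9 : ((2 : ℝ) ^ 107 - 2 ^ 70) / 2 ^ 34 = 2 ^ 73 - 2 ^ 36 := by norm_num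
    rw [← e9, le_div_iff₀ (by positivity)]
    rw [le_div_iff₀ (by positivity)] at k0 k1 k2 k3 k4 k5 k6
    linarith
  have hp : ∑ i ∈ range 301, |p i| ≤ 2 ^ 73 - 2 ^ 36 := by
    have h1 : ((∑ i ∈ range 301, |p i| : ℤ) : ℝ) ≤ 2 ^ 73 - 2 ^ 36 := by
      refine le_trans ?_ hN
      push_cast
      refine Finset.sum_le_sum fun i _ => ?_
      have := Complex.abs_re_le_norm (zc p q i)
      rwa [TM.zc_re] at this
    exact_mod_cast h1
  have hq : ∑ i ∈ range 301, |q i| ≤ 2 ^ 73 - 2 ^ 36 := by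
    have h1 : ((∑ i ∈ range 301, |q i| : ℤ) : ℝ) ≤ 2 ^ 73 - 2 ^ 36 := by
      refine le_trans ?_ hN
      push_cast
      refine Finset.sum_le_sum fun i _ => ?_
      have := Complex.abs_im_le_norm (zc p q i)
      rwa [TM.zc_im] at this
    exact_mod_cast h1
  refine ⟨?_, h.sp, h.sq, hp, hq⟩
  have hpa : ∀ i, |p i| < 2 ^ 73 := fun i =>
    lt_of_le_of_lt (le_sum h.sp hp (by norm_num) i) (by norm_num)
  have hqa : ∀ i, |q i| < 2 ^ 73 := fun i =>
    lt_of_le_of_lt (le_sum h.sq hq (by norm_num) i) (by norm_num)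
  have hd := dgh_lt (s := 73) (by norm_num) hpa hqa
  obtain ⟨T, hT⟩ := TM.Sm_of (n := 301) (o := fun i => fo (2 ^ 73 + 2 ^ 80 * 2 ^ 73) (vb i))
    (d := dgh 73 p q) h.N (fun i _ => hd i) (fun i _ => by
      show p i + 2 ^ 80 * q i + ((fo (2 ^ 73 + 2 ^ 80 * 2 ^ 73) (vb i) : ℕ) : ℤ) = (dgh 73 p q i : ℕ)
      unfold dgh
      cases hv : vb i
      · rw [fo_f, h.sp i hv, h.sq i hv]
        rfl
      · rw [fo_t, if_pos rfl]
        push_cast
        rw [hf_z (hpa i), hf_z (hqa i)]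
        ring)
  have e : yR u = (u.N + nO) % 2 ^ (160 * 301) := TM.land_MA _
  rw [e, nO_eq, hT, Nat.add_mul_mod_self_left, Nat.mod_eq_of_lt (TM.Sm_lt fun i _ => hd i)]
  rfl

/-- three parameters -/
theorem cbA_ok {Y : ℕ} {p q : ℕ → ℤ} (h : NY Y p q) :
    2 ^ 13 * √(Cu (fun i => (p i : ℝ)) ^ 2 + Cu (fun i => (q i : ℝ)) ^ 2) ≤
      (cbA (abY Y) : ℝ) + 2 ^ 12 := by
  have e : cbA (abY Y) = mo1 (Wg p) (Wg q) :=
    cub_ok (s := 73) (m := 2 ^ 73 - 2 ^ 36) (by norm_num) (by norm_num) (by norm_num) h.sp h.sq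
      h.bp h.bq h.Y (M := MC) MC_ok (abY_eq Y)
  rw [e, mul_sqrt]
  have h1 := sqrt_mo (mul_nonneg (by positivity) (Cu_nn (fun i => (p i : ℝ))))
    (mul_nonneg (by positivity) (Cu_nn (fun i => (q i : ℝ)))) (Cu_le p) (Cu_le q)
  refine h1.trans ?_
  norm_num

/-- the middle control -/
theorem cbM_ok {X Y Z : ℕ} {p0 q0 p1 q1 p2 q2 : ℕ → ℤ} (hx : NY X p0 q0) (hy : NY Y p1 q1)
    (hz : NY Z p2 q2) : 2 ^ 13 * √(Cu (fun i => 2 * (p1 i : ℝ) - ((p0 i : ℝ) + p2 i) / 2) ^ 2 +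
      Cu (fun i => 2 * (q1 i : ℝ) - ((q0 i : ℝ) + q2 i) / 2) ^ 2) ≤
      (cbM X Y Z : ℝ) + 2 ^ 12 := by
  set r : ℕ → ℤ := fun i => 4 * p1 i - (p0 i + p2 i) with hr
  set r' : ℕ → ℤ := fun i => 4 * q1 i - (q0 i + q2 i) with hr'
  have sm : ∀ {a b c : ℕ → ℤ}, ∑ i ∈ range 301, |a i| ≤ 2 ^ 73 - 2 ^ 36 →
      ∑ i ∈ range 301, |b i| ≤ 2 ^ 73 - 2 ^ 36 → ∑ i ∈ range 301, |c i| ≤ 2 ^ 73 - 2 ^ 36 →
      ∑ i ∈ range 301, |4 * b i - (a i + c i)| ≤ 6 * 2 ^ 73 := by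
    intro a b c ha hb hc
    have h1 : ∑ i ∈ range 301, |4 * b i - (a i + c i)| ≤
        ∑ i ∈ range 301, (4 * |b i| + (|a i| + |c i|)) := by
      refine Finset.sum_le_sum fun i _ => ?_
      have k1 := abs_sub (4 * b i) (a i + c i)
      have k2 := abs_add_le (a i) (c i)
      rw [abs_mul, abs_of_nonneg (by norm_num : (0 : ℤ) ≤ 4)] at k1
      linarith
    rw [Finset.sum_add_distrib, Finset.sum_add_distrib, ← Finset.mul_sum] at h1
    linarith
  have hsr := sm hx.bp hy.bp hz.bp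
  have hsr' := sm hx.bq hy.bq hz.bq
  have spr : Sp r := fun i hv => by
    show 4 * p1 i - (p0 i + p2 i) = 0
    rw [hx.sp i hv, hy.sp i hv, hz.sp i hv]
    rfl
  have spr' : Sp r' := fun i hv => by
    show 4 * q1 i - (q0 i + q2 i) = 0
    rw [hx.sq i hv, hy.sq i hv, hz.sq i hv]
    rfl
  have bd : ∀ {a : ℕ → ℤ}, Sp a → ∑ i ∈ range 301, |a i| ≤ 2 ^ 73 - 2 ^ 36 → ∀ i, |a i| < 2 ^ 73 :=
    fun ha h i => lt_of_le_of_lt (le_sum ha h (by norm_num) i) (by norm_num)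
  have hY : Nat.sub (Nat.add (Nat.shiftLeft Y (nat_lit 2)) nK) (Nat.add X Z) =
      Sm 301 (dgh 76 r r') := by
    have e1 : Nat.sub (Nat.add (Nat.shiftLeft Y (nat_lit 2)) nK) (Nat.add X Z) =
        (Y * 4 + nK) - (X + Z) := by
      show (Y <<< 2 + nK) - (X + Z) = _
      rw [Nat.shiftLeft_eq]
    rw [e1, hx.Y, hy.Y, hz.Y, nK_eq, ← TM.Sm_mul, ← TM.Sm_add, ← TM.Sm_add]
    have key : ∀ i, (if vb i = true then (p0 i + 2 ^ 73).toNat + 2 ^ 80 * (q0 i + 2 ^ 73).toNat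
          else 0) + (if vb i = true then (p2 i + 2 ^ 73).toNat + 2 ^ 80 * (q2 i + 2 ^ 73).toNat
          else 0) + dgh 76 r r' i =
        (if vb i = true then (p1 i + 2 ^ 73).toNat + 2 ^ 80 * (q1 i + 2 ^ 73).toNat else 0) * 4 +
          fo ((2 ^ 76 - 2 ^ 74) + 2 ^ 80 * (2 ^ 76 - 2 ^ 74)) (vb i) := by
      intro i
      unfold dgh
      cases hv : vb i
      · rfl
      · rw [if_pos rfl, if_pos rfl, if_pos rfl, if_pos rfl, fo_t]
        have a0 := hf_z (s := 73) (bd hx.sp hx.bp i)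
        have a1 := hf_z (s := 73) (bd hy.sp hy.bp i)
        have a2 := hf_z (s := 73) (bd hz.sp hz.bp i)
        have b0 := hf_z (s := 73) (bd hx.sq hx.bq i)
        have b1 := hf_z (s := 73) (bd hy.sq hy.bq i)
        have b2 := hf_z (s := 73) (bd hz.sq hz.bq i)
        have c1 := hf_z (s := 76) (lt_of_le_of_lt (le_sum spr hsr (by norm_num) i) (by norm_num))
        have c2 := hf_z (s := 76) (lt_of_le_of_lt (le_sum spr' hsr' (by norm_num) i) (by norm_num))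
        show hf 73 (p0 i) + 2 ^ 80 * hf 73 (q0 i) + (hf 73 (p2 i) + 2 ^ 80 * hf 73 (q2 i)) +
          (hf 76 (r i) + 2 ^ 80 * hf 76 (r' i)) = (hf 73 (p1 i) + 2 ^ 80 * hf 73 (q1 i)) * 4 +
            ((2 ^ 76 - 2 ^ 74) + 2 ^ 80 * (2 ^ 76 - 2 ^ 74))
        have d1 : hf 73 (p0 i) + hf 73 (p2 i) + hf 76 (r i) = hf 73 (p1 i) * 4 +
            (2 ^ 76 - 2 ^ 74) := by
          have g : ((hf 73 (p0 i) + hf 73 (p2 i) + hf 76 (r i) : ℕ) : ℤ) =
              ((hf 73 (p1 i) * 4 + (2 ^ 76 - 2 ^ 74) : ℕ) : ℤ) := by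
            push_cast [Nat.cast_sub]
            rw [a0, a1, a2, c1]
            show p0 i + 2 ^ 73 + (p2 i + 2 ^ 73) + (4 * p1 i - (p0 i + p2 i) + 2 ^ 76) = _
            norm_num
            ring
          exact_mod_cast g
        have d2 : hf 73 (q0 i) + hf 73 (q2 i) + hf 76 (r' i) = hf 73 (q1 i) * 4 +
            (2 ^ 76 - 2 ^ 74) := by
          have g : ((hf 73 (q0 i) + hf 73 (q2 i) + hf 76 (r' i) : ℕ) : ℤ) =
              ((hf 73 (q1 i) * 4 + (2 ^ 76 - 2 ^ 74) : ℕ) : ℤ) := by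
            push_cast [Nat.cast_sub]
            rw [b0, b1, b2, c2]
            show q0 i + 2 ^ 73 + (q2 i + 2 ^ 73) + (4 * q1 i - (q0 i + q2 i) + 2 ^ 76) = _
            norm_num
            ring
          exact_mod_cast g
        generalize (2 : ℕ) ^ 76 - 2 ^ 74 = K at *
        generalize hf 73 (p0 i) = v1 at *
        generalize hf 73 (p2 i) = v2 at *
        generalize hf 76 (r i) = v3 at *
        generalize hf 73 (p1 i) = v4 at *
        generalize hf 73 (q0 i) = w1 at *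
        generalize hf 73 (q2 i) = w2 at *
        generalize hf 76 (r' i) = w3 at *
        generalize hf 73 (q1 i) = w4 at *
        have d3 : 2 ^ 80 * (w1 + w2 + w3) = 2 ^ 80 * (w4 * 4 + K) := by rw [d2]
        generalize (2 : ℕ) ^ 80 = P at *
        have d4 : P * w1 + P * w2 + P * w3 = P * w4 * 4 + P * K := by
          rw [← mul_add, ← mul_add, d3]
          ring
        have d5 : (v4 + P * w4) * 4 = v4 * 4 + P * w4 * 4 := by ring
        rw [d5]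
        omega
    rw [← TM.Sm_sub]
    · refine TM.Sm_congr fun i _ => ?_
      have := key i
      omega
    · intro i _
      have := key i
      omega
  have e : cbM X Y Z = mo1 (Wg r) (Wg r') / 2 := by
    have e1 : cbB (abZ (Nat.sub (Nat.add (Nat.shiftLeft Y (nat_lit 2)) nK) (Nat.add X Z))) =
        mo1 (Wg r) (Wg r') :=
      cub_ok (s := 76) (m := 6 * 2 ^ 73) (by norm_num) (by norm_num) (by norm_num) spr spr'
        hsr hsr' hY (M := MD) MD_ok (abZ_eq _)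
    show Nat.shiftRight (cbB _) 1 = _
    rw [e1]
    exact Nat.shiftRight_eq_div_pow _ _
  have f1 : (fun i => 2 * (p1 i : ℝ) - ((p0 i : ℝ) + p2 i) / 2) = fun i => ((r i : ℤ) : ℝ) / 2 := by
    funext i
    show _ = ((4 * p1 i - (p0 i + p2 i) : ℤ) : ℝ) / 2
    push_cast
    ring
  have f2 : (fun i => 2 * (q1 i : ℝ) - ((q0 i : ℝ) + q2 i) / 2) =
      fun i => ((r' i : ℤ) : ℝ) / 2 := by
    funext i
    show _ = ((4 * q1 i - (q0 i + q2 i) : ℤ) : ℝ) / 2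
    push_cast
    ring
  have h1 := sqrt_mo (mul_nonneg (by positivity) (Cu_nn (fun i => (r i : ℝ))))
    (mul_nonneg (by positivity) (Cu_nn (fun i => (r' i : ℝ)))) (Cu_le r) (Cu_le r')
  have h2 : √((Cu (fun i => (r i : ℝ)) / 2) ^ 2 + (Cu (fun i => (r' i : ℝ)) / 2) ^ 2) =
      √(Cu (fun i => (r i : ℝ)) ^ 2 + Cu (fun i => (r' i : ℝ)) ^ 2) / 2 := by
    have e5 : (Cu (fun i => (r i : ℝ)) / 2) ^ 2 + (Cu (fun i => (r' i : ℝ)) / 2) ^ 2 =
        (Cu (fun i => (r i : ℝ)) ^ 2 + Cu (fun i => (r' i : ℝ)) ^ 2) / 2 ^ 2 := by ring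
    rw [e5, Real.sqrt_div' _ (by positivity), Real.sqrt_sq (by positivity)]
  rw [← mul_sqrt] at h1
  rw [f1, f2, Cu_half, Cu_half, h2, e]
  have h3 : mo1 (Wg r) (Wg r') ≤ 2 * (mo1 (Wg r) (Wg r') / 2) + 1 := by omega
  have h4 : ((mo1 (Wg r) (Wg r') : ℕ) : ℝ) ≤
      (2 : ℝ) * ((mo1 (Wg r) (Wg r') / 2 : ℕ) : ℝ) + 1 := by exact_mod_cast h3
  have h5 : (402 : ℝ) + 1 ≤ 2 * 2 ^ 12 := by norm_num
  linarith

end Pool.Agent.Helper91.FU
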